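import Mathlib

set_option autoImplicit false

/-! # Symmetric bilinear forms over `ℂ⟦x⟧` have orthogonal bases -/

namespace Pool.Agent.Zk22.QB

open Module

theorem isUnit_iff {a : PowerSeries ℂ} : IsUnit a ↔ PowerSeries.constantCoeff a ≠ 0 := by
  rw [PowerSeries.isUnit_iff_constantCoeff, isUnit_iff_ne_zero]

/-- a nonzero power series is a power of `x` times a unit -/
theorem exists_fac {a : PowerSeries ℂ} (ha : a ≠ 0) :
    ∃ (n : ℕ) (u : PowerSeries ℂ), PowerSeries.constantCoeff u ≠ 0 ∧ a = PowerSeries.X ^ n * u := by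
  obtain ⟨n, h⟩ := IsDiscreteValuationRing.associated_pow_irreducible ha PowerSeries.X_irreducible
  obtain ⟨u, hu⟩ := h.symm
  exact ⟨n, u, isUnit_iff.1 u.isUnit, hu.symm⟩

theorem dvd_total' (a b : PowerSeries ℂ) : a ∣ b ∨ b ∣ a := by
  by_cases ha : a = 0
  · right
    rw [ha]
    exact dvd_zero _
  by_cases hb : b = 0
  · left
    rw [hb]
    exact dvd_zero _
  obtain ⟨n, u, hu, rfl⟩ := exists_fac ha
  obtain ⟨m, v, hv, rfl⟩ := exists_fac hb
  have hu' := isUnit_iff.2 hu
  have hv' := isUnit_iff.2 hv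
  rcases le_total n m with h | h
  · left
    exact (hu'.mul_right_dvd).2 (Dvd.dvd.mul_right (pow_dvd_pow _ h) _)
  · right
    exact (hv'.mul_right_dvd).2 (Dvd.dvd.mul_right (pow_dvd_pow _ h) _)

theorem exists_dvd_all {ι : Type} (s : Finset ι) (hs : s.Nonempty) (a : ι → PowerSeries ℂ) :
    ∃ i ∈ s, ∀ j ∈ s, a i ∣ a j := by
  classical
  induction hs using Finset.Nonempty.cons_induction with
  | singleton i => exact ⟨i, Finset.mem_singleton_self i, fun j hj => by
      rw [Finset.mem_singleton.1 hj]⟩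
  | cons i s hi hs ih =>
    obtain ⟨k, hk, hk2⟩ := ih
    rcases dvd_total' (a i) (a k) with h | h
    · refine ⟨i, Finset.mem_cons_self _ _, fun j hj => ?_⟩
      rcases Finset.mem_cons.1 hj with rfl | hj
      · exact dvd_rfl
      · exact h.trans (hk2 j hj)
    · refine ⟨k, Finset.mem_cons_of_mem hk, fun j hj => ?_⟩
      rcases Finset.mem_cons.1 hj with rfl | hj
      · exact h
      · exact hk2 j hj

theorem orth (n : ℕ) : ∀ (M : Type) [AddCommGroup M] [Module (PowerSeries ℂ) M]
    (_ : Basis (Fin n) (PowerSeries ℂ) M)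
    (B : M →ₗ[PowerSeries ℂ] M →ₗ[PowerSeries ℂ] PowerSeries ℂ) (_ : ∀ x y, B x y = B y x),
    ∃ b : Basis (Fin n) (PowerSeries ℂ) M, ∀ i j, i ≠ j → B (b i) (b j) = 0 := by
  induction n with
  | zero => exact fun M _ _ e B _ => ⟨e, fun i => i.elim0⟩
  | succ n ih =>
    intro M _ _ e B hB
    by_cases hall : ∀ i j, B (e i) (e j) = 0
    · exact ⟨e, fun i j _ => hall i j⟩
    push Not at hall
    obtain ⟨i0, j0, h0⟩ := hall
    obtain ⟨p, -, hp⟩ := exists_dvd_all (Finset.univ : Finset (Fin (n + 1) × Fin (n + 1)))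
      ⟨(0, 0), Finset.mem_univ _⟩ (fun p => B (e p.1) (e p.2))
    -- a vector `v` such that `B v v` divides all `B (e i) (e j)`
    obtain ⟨v, hv⟩ : ∃ v, ∀ i j, B v v ∣ B (e i) (e j) := by
      have key : ∀ d : PowerSeries ℂ, d ∣ B (e p.1) (e p.2) → ∀ i j, d ∣ B (e i) (e j) :=
        fun d hd i j => hd.trans (hp (i, j) (Finset.mem_univ _))
      obtain ⟨α, hα⟩ := hp (p.1, p.1) (Finset.mem_univ _)
      obtain ⟨β, hβ⟩ := hp (p.2, p.2) (Finset.mem_univ _)
      by_cases hα' : IsUnit α
      · exact ⟨e p.1, key _ (by rw [hα]; exact (hα'.mul_right_dvd).2 dvd_rfl)⟩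
      by_cases hβ' : IsUnit β
      · exact ⟨e p.2, key _ (by rw [hβ]; exact (hβ'.mul_right_dvd).2 dvd_rfl)⟩
      refine ⟨e p.1 + e p.2, key _ ?_⟩
      have h1 : B (e p.1 + e p.2) (e p.1 + e p.2) = B (e p.1) (e p.2) * (2 + (α + β)) := by
        have hα2 : B (e p.1) (e p.1) = B (e p.1) (e p.2) * α := hα
        have hβ2 : B (e p.2) (e p.2) = B (e p.1) (e p.2) * β := hβ
        rw [LinearMap.map_add₂, map_add, map_add, hB (e p.2) (e p.1), hα2, hβ2]
        ring
      have hu : IsUnit (2 + (α + β)) := by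
        rw [isUnit_iff] at hα' hβ' ⊢
        push Not at hα' hβ'
        rw [map_add, map_add, hα', hβ', map_ofNat]
        norm_num
      rw [h1]
      exact (hu.mul_right_dvd).2 dvd_rfl
    have hd0 : B v v ≠ 0 := fun h => h0 (by
      obtain ⟨c, hc⟩ := hv i0 j0
      rw [hc, h, zero_mul])
    -- the functional
    have hvall : ∀ i, B v v ∣ B v (e i) := by
      intro i
      have h1 : v = ∑ k, e.repr v k • e k := (e.sum_repr v).symm
      have h2 : B v (e i) = ∑ k, e.repr v k * B (e k) (e i) := by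
        conv_lhs => rw [h1]
        rw [map_sum, LinearMap.sum_apply]
        refine Finset.sum_congr rfl fun k _ => ?_
        rw [map_smul, LinearMap.smul_apply, smul_eq_mul]
      rw [h2]
      exact Finset.dvd_sum fun k _ => Dvd.dvd.mul_left (hv k i) _
    choose c hc using hvall
    let lam : M →ₗ[PowerSeries ℂ] PowerSeries ℂ := e.constr (PowerSeries ℂ) c
    have hlam : ∀ x, B v x = B v v * lam x := by
      intro x
      have h1 : B v = (B v v) • lam := by
        refine e.ext fun i => ?_
        rw [LinearMap.smul_apply, smul_eq_mul, hc]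
        congr 1
        exact (e.constr_basis (PowerSeries ℂ) c i).symm
      conv_lhs => rw [h1]
      rw [LinearMap.smul_apply, smul_eq_mul]
    have hlv : lam v = 1 := by
      have h1 := hlam v
      have h2 : B v v * 1 = B v v * lam v := by rw [mul_one]; exact h1
      exact (mul_left_cancel₀ hd0 h2).symm
    obtain ⟨k, bk⟩ := Submodule.basisOfPid e (LinearMap.ker lam)
    have hli : ∀ (c : PowerSeries ℂ), ∀ x ∈ LinearMap.ker lam, c • v + x = 0 → c = 0 := by
      intro c x hx h
      have h1 := congrArg lam h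
      rw [map_add, map_smul, LinearMap.mem_ker.1 hx, hlv, map_zero, smul_eq_mul, mul_one,
        add_zero] at h1
      exact h1
    have hsp : ∀ z : M, ∃ c : PowerSeries ℂ, z + c • v ∈ LinearMap.ker lam := by
      intro z
      refine ⟨-lam z, ?_⟩
      rw [LinearMap.mem_ker, map_add, map_smul, hlv, smul_eq_mul, mul_one, add_neg_cancel]
    have hk : k = n := by
      have h1 := Fintype.card_congr ((Basis.mkFinCons v bk hli hsp).indexEquiv e)
      simpa using h1
    subst hk
    obtain ⟨b', hb'⟩ := ih (LinearMap.ker lam) bk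
      ((B.comp (LinearMap.ker lam).subtype).compl₂ (LinearMap.ker lam).subtype)
      (fun x y => hB _ _)
    have hker : ∀ x : LinearMap.ker lam, B v x = 0 := by
      intro x
      rw [hlam, LinearMap.mem_ker.1 x.2, mul_zero]
    refine ⟨Basis.mkFinCons v b' hli hsp, fun i j hij => ?_⟩
    rw [Basis.coe_mkFinCons]
    revert hij
    refine Fin.cases ?_ (fun i => ?_) i
    · refine Fin.cases ?_ (fun j => ?_) j
      · intro h
        exact absurd rfl h
      · intro _
        rw [Fin.cons_zero, Fin.cons_succ]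
        exact hker _
    · refine Fin.cases ?_ (fun j => ?_) j
      · intro _
        rw [Fin.cons_zero, Fin.cons_succ, hB]
        exact hker _
      · intro h
        rw [Fin.cons_succ, Fin.cons_succ]
        exact hb' i j (fun h' => h (by rw [h']))

/-- **Symmetric matrices over `ℂ⟦x⟧` are congruent to diagonal matrices.** -/
theorem diag {m : ℕ} (A : Matrix (Fin m) (Fin m) (PowerSeries ℂ)) (hA : A.IsSymm) :
    ∃ (P : Matrix (Fin m) (Fin m) (PowerSeries ℂ)) (a : Fin m → PowerSeries ℂ), IsUnit P.det ∧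
      ∀ j k, ∑ i, ∑ l, P i j * A i l * P l k = if j = k then a j else 0 := by
  have hsym : ∀ x y : Fin m → PowerSeries ℂ, Matrix.toLinearMap₂' (PowerSeries ℂ) A x y =
      Matrix.toLinearMap₂' (PowerSeries ℂ) A y x := by
    intro x y
    rw [Matrix.toLinearMap₂'_apply, Matrix.toLinearMap₂'_apply, Finset.sum_comm]
    refine Finset.sum_congr rfl fun i _ => Finset.sum_congr rfl fun j _ => ?_
    rw [hA.apply i j]
    simp only [smul_eq_mul]
    ring
  obtain ⟨b, hb⟩ := orth m (Fin m → PowerSeries ℂ) (Pi.basisFun (PowerSeries ℂ) (Fin m))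
    (Matrix.toLinearMap₂' (PowerSeries ℂ) A) hsym
  refine ⟨Matrix.of fun i j => b j i,
    fun j => Matrix.toLinearMap₂' (PowerSeries ℂ) A (b j) (b j), ?_, ?_⟩
  · have h1 := (Pi.basisFun (PowerSeries ℂ) (Fin m)).isUnit_det b
    rw [Basis.det_apply] at h1
    have h2 : (Pi.basisFun (PowerSeries ℂ) (Fin m)).toMatrix b = Matrix.of fun i j => b j i := by
      ext i j
      rw [Basis.toMatrix_apply, Pi.basisFun_repr]
      rfl
    rwa [h2] at h1
  · intro j k
    have h1 : ∑ i, ∑ l, (Matrix.of fun i j => b j i) i j * A i l *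
        (Matrix.of fun i j => b j i) l k = Matrix.toLinearMap₂' (PowerSeries ℂ) A (b j) (b k) := by
      rw [Matrix.toLinearMap₂'_apply]
      refine Finset.sum_congr rfl fun i _ => Finset.sum_congr rfl fun l _ => ?_
      simp only [Matrix.of_apply, smul_eq_mul]
      ring
    rw [h1]
    split_ifs with h
    · rw [h]
    · exact hb j k h

end Pool.Agent.Zk22.QB
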