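import Pool.Agent.Zk22.QB.Rel
import Pool.Agent.Zk22.QB.Orth

set_option autoImplicit false
set_option linter.unusedSectionVars false
set_option linter.unusedVariables false

/-! # Normal forms -/

namespace Pool.Agent.Zk22.QB

open MvPowerSeries
open Pool.Agent.Y229.GL (IsCoord)

variable {m : ℕ}

/-- the variable `y_i` -/
noncomputable abbrev Y (i : Fin m) : MvPowerSeries (Fin (m + 1)) ℂ := X i.succ

/-- the coordinates `x, ψ_1, …, ψ_m` -/
noncomputable def mk (ψ : Fin m → MvPowerSeries (Fin (m + 1)) ℂ) :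
    Fin (m + 1) → MvPowerSeries (Fin (m + 1)) ℂ := Fin.cons (X 0) ψ

lemma mk_const {ψ : Fin m → MvPowerSeries (Fin (m + 1)) ℂ} (h : ∀ i, constantCoeff (ψ i) = 0) (i) :
    constantCoeff (mk ψ i) = 0 := by
  unfold mk
  refine Fin.cases ?_ (fun i => ?_) i
  · rw [Fin.cons_zero, constantCoeff_X]
  · rw [Fin.cons_succ, h]

lemma mk_coord {ψ : Fin m → MvPowerSeries (Fin (m + 1)) ℂ} (ρ : Fin m → ℕ)
    (h1 : ∀ i, lin i.succ (ψ i) ≠ 0)
    (h2 : ∀ i j, i ≠ j → ρ i ≤ ρ j → lin j.succ (ψ i) = 0) : IsCoord (mk ψ) := by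
  rw [isCoord_iff]
  refine det_ne_of_rank _ (Fin.cons 0 fun i => ρ i + 1) ?_ ?_
  · intro i
    rw [Matrix.of_apply]
    refine Fin.cases ?_ (fun i => ?_) i
    · unfold mk
      rw [Fin.cons_zero, lin_X, if_pos rfl]
      exact one_ne_zero
    · unfold mk
      rw [Fin.cons_succ]
      exact h1 i
  · intro i j
    rw [Matrix.of_apply]
    refine Fin.cases ?_ (fun i => ?_) i
    · intro h _
      unfold mk
      rw [Fin.cons_zero, lin_X, if_neg h]
    · refine Fin.cases ?_ (fun j => ?_) j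
      · intro _ h
        rw [Fin.cons_zero, Fin.cons_succ] at h
        omega
      · intro h h'
        rw [Fin.cons_succ, Fin.cons_succ] at h'
        unfold mk
        rw [Fin.cons_succ]
        exact h2 i j (fun h3 => h (by rw [h3])) (by omega)

/-- the substitution -/
lemma coord_hom (ψ : Fin m → MvPowerSeries (Fin (m + 1)) ℂ) (h0 : ∀ i, constantCoeff (ψ i) = 0)
    (hc : IsCoord (mk ψ)) :
    ∃ Φ : MvPowerSeries (Fin (m + 1)) ℂ →ₐ[ℂ] MvPowerSeries (Fin (m + 1)) ℂ,
      (∀ a, Φ (io a) = io a) ∧ (∀ i, Φ (Y i) = ψ i) ∧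
      ∀ f g u, IsUnit u → Φ f = u * g → Rl f g := by
  have hs := hasSubst_of_constantCoeff_zero (mk_const h0)
  refine ⟨substAlgHom hs, fun a => ?_, fun i => ?_, fun f g u hu h => ?_⟩
  · rw [coe_substAlgHom hs]
    exact subst_io (mk_const h0) rfl a
  · rw [coe_substAlgHom hs, subst_X hs]
    rfl
  · rw [coe_substAlgHom hs] at h
    exact ⟨mk ψ, u, hc, mk_const h0, hu, h⟩

lemma isUnit_of_const {σ : Type} {u : MvPowerSeries σ ℂ} (h : constantCoeff u ≠ 0) : IsUnit u := by
  rw [MvPowerSeries.isUnit_iff_constantCoeff]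
  exact isUnit_iff_ne_zero.2 h

/-- the last term of a normal form: `0`, `x^γ` with `γ ≥ 1`, or `x^β y_j` with `j ∉ S` -/
def IsTail (S : Finset (Fin m)) (E : MvPolynomial (Fin (m + 1)) ℂ) : Prop :=
  E = 0 ∨ (∃ γ : ℕ, 1 ≤ γ ∧ E = MvPolynomial.X 0 ^ γ) ∨
    ∃ (β : ℕ) (j : Fin m), j ∉ S ∧ E = MvPolynomial.X 0 ^ β * MvPolynomial.X j.succ

/-- the normal form `∑_{i ∈ S} x^(n i) y_i^(k i) + E` -/
noncomputable def nform (S : Finset (Fin m)) (n k : Fin m → ℕ)
    (E : MvPolynomial (Fin (m + 1)) ℂ) : MvPolynomial (Fin (m + 1)) ℂ :=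
  ∑ i ∈ S, MvPolynomial.X 0 ^ n i * MvPolynomial.X i.succ ^ k i + E

lemma nform_coe (S : Finset (Fin m)) (n k : Fin m → ℕ) (E : MvPolynomial (Fin (m + 1)) ℂ) :
    ((nform S n k E : MvPolynomial (Fin (m + 1)) ℂ) : MvPowerSeries (Fin (m + 1)) ℂ) =
      ∑ i ∈ S, X 0 ^ n i * Y i ^ k i + (E : MvPowerSeries (Fin (m + 1)) ℂ) := by
  unfold nform
  rw [MvPolynomial.coe_add]
  congr 1
  have h := map_sum (MvPolynomial.coeToMvPowerSeries.ringHom (σ := Fin (m + 1)) (R := ℂ))
    (fun i => MvPolynomial.X 0 ^ n i * MvPolynomial.X i.succ ^ k i) S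
  refine h.trans (Finset.sum_congr rfl fun i _ => ?_)
  rw [map_mul, map_pow, map_pow]
  simp only [MvPolynomial.coeToMvPowerSeries.ringHom_apply, MvPolynomial.coe_X]

/-- roots -/
lemma scale (k : Fin m → ℕ) (hk : ∀ i, k i ≠ 0) (u : Fin m → PowerSeries ℂ)
    (hu : ∀ i, PowerSeries.constantCoeff (u i) ≠ 0) (w : MvPowerSeries (Fin (m + 1)) ℂ)
    (hw : constantCoeff w ≠ 0) :
    ∃ t : Fin m → MvPowerSeries (Fin (m + 1)) ℂ, ∀ i, constantCoeff (t i) ≠ 0 ∧
      io (u i) * t i ^ k i = w := by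
  have h : ∀ i, ∃ t : MvPowerSeries (Fin (m + 1)) ℂ, constantCoeff t ≠ 0 ∧
      io (u i) * t ^ k i = w := by
    intro i
    have h1 : constantCoeff (w * io (u i)⁻¹) ≠ 0 := by
      rw [map_mul, const_io, PowerSeries.constantCoeff_inv]
      exact mul_ne_zero hw (inv_ne_zero (hu i))
    obtain ⟨t, ht⟩ := exists_root (w * io (u i)⁻¹) h1 (k i) (hk i)
    refine ⟨t, const_root h1 (hk i) ht, ?_⟩
    rw [ht]
    have h2 : (io (u i) * io (u i)⁻¹ : MvPowerSeries (Fin (m + 1)) ℂ) = 1 := by
      rw [← map_mul, PowerSeries.mul_inv_cancel _ (hu i), map_one]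
    linear_combination w * h2
  choose t ht using h
  exact ⟨t, ht⟩

section nf

variable (k : Fin m → ℕ) (hk : ∀ i, k i ≠ 0) (S L : Finset (Fin m)) (hSL : Disjoint S L)
  (a b : Fin m → PowerSeries ℂ) (c : PowerSeries ℂ)

include hk hSL

/-- scaling -/
lemma nf_scale (n : Fin m → ℕ) (u : Fin m → PowerSeries ℂ)
    (hu : ∀ i, PowerSeries.constantCoeff (u i) ≠ 0)
    (ha : ∀ i ∈ S, a i = PowerSeries.X ^ n i * u i)
    (w : PowerSeries ℂ) (e : Fin m → PowerSeries ℂ) (hw : PowerSeries.constantCoeff w ≠ 0) (γ : ℕ) (δ : ℂ)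
    (hc : c = PowerSeries.C δ * (PowerSeries.X ^ γ * w)) (hb : ∀ i ∈ L, b i = PowerSeries.C δ * (PowerSeries.X ^ γ * (w * e i))) :
    Rl (io c + ∑ i ∈ S, io (a i) * Y i ^ k i + ∑ i ∈ L, io (b i) * Y i)
      (∑ i ∈ S, X 0 ^ n i * Y i ^ k i + C δ * X 0 ^ γ) := by
  classical
  set W : MvPowerSeries (Fin (m + 1)) ℂ := io w * (1 + ∑ i ∈ L, io (e i) * Y i) with hWd
  have hW : constantCoeff W ≠ 0 := by
    rw [hWd, map_mul, const_io, map_add, map_one, map_sum]
    rw [Finset.sum_eq_zero (fun i _ => by rw [map_mul, constantCoeff_X, mul_zero]), add_zero,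
      mul_one]
    exact hw
  obtain ⟨t, ht⟩ := scale k hk u hu W hW
  set ψ : Fin m → MvPowerSeries (Fin (m + 1)) ℂ := fun i => if i ∈ S then Y i * t i else Y i
    with hψ
  have hψS : ∀ i ∈ S, ψ i = Y i * t i := fun i hi => by rw [hψ]; simp only [if_pos hi]
  have hψL : ∀ i, i ∉ S → ψ i = Y i := fun i hi => by rw [hψ]; simp only [if_neg hi]
  have h0 : ∀ i, constantCoeff (ψ i) = 0 := by
    intro i
    by_cases hi : i ∈ S
    · rw [hψS i hi, map_mul, constantCoeff_X, zero_mul]
    · rw [hψL i hi, constantCoeff_X]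
  have hlin : ∀ i j, lin j.succ (ψ i) = (if i ∈ S then constantCoeff (t i) else 1) *
      (if i = j then 1 else 0) := by
    intro i j
    by_cases hi : i ∈ S
    · rw [hψS i hi, if_pos hi, lin_mul, constantCoeff_X, zero_mul, zero_add, lin_X]
      congr 1
      simp only [Fin.succ_inj]
    · rw [hψL i hi, if_neg hi, one_mul, lin_X]
      simp only [Fin.succ_inj]
  have hcoord : IsCoord (mk ψ) := by
    refine mk_coord (fun _ => 0) (fun i => ?_) (fun i j hij _ => ?_)
    · rw [hlin, if_pos rfl, mul_one]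
      split_ifs
      · exact (ht i).1
      · exact one_ne_zero
    · rw [hlin, if_neg hij, mul_zero]
  obtain ⟨Φ, h1, h2, h3⟩ := coord_hom ψ h0 hcoord
  refine h3 _ _ W (isUnit_of_const hW) ?_
  rw [map_add, map_add, map_sum, map_sum, h1]
  have e1 : ∑ i ∈ S, Φ (io (a i) * Y i ^ k i) = W * ∑ i ∈ S, X 0 ^ n i * Y i ^ k i := by
    rw [Finset.mul_sum]
    refine Finset.sum_congr rfl fun i hi => ?_
    rw [map_mul, map_pow, h1, h2, hψS i hi, ha i hi, map_mul, map_pow, io_X, mul_pow]
    linear_combination (X 0 ^ n i * Y i ^ k i) * (ht i).2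
  have e2 : ∑ i ∈ L, Φ (io (b i) * Y i) = C δ * (X 0 ^ γ * (io w * ∑ i ∈ L, io (e i) * Y i)) := by
    rw [Finset.mul_sum, Finset.mul_sum, Finset.mul_sum]
    refine Finset.sum_congr rfl fun i hi => ?_
    rw [map_mul, h1, h2, hψL i (fun h => Finset.disjoint_left.1 hSL h hi), hb i hi, map_mul,
      map_mul, map_mul, map_pow, io_X]
    have : (io (PowerSeries.C δ) : MvPowerSeries (Fin (m + 1)) ℂ) = C δ :=
      (io (m := m)).commutes δ
    rw [this]
    ring
  rw [e1, e2, hc, map_mul, map_mul, map_pow, io_X]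
  have : (io (PowerSeries.C δ) : MvPowerSeries (Fin (m + 1)) ℂ) = C δ :=
    (io (m := m)).commutes δ
  rw [this, hWd]
  ring

/-- **The normal form.** -/
theorem nf (ha : ∀ i ∈ S, a i ≠ 0) (hb : ∀ i ∈ L, b i ≠ 0)
    (hc : PowerSeries.constantCoeff c = 0) :
    ∃ (n : Fin m → ℕ) (E : MvPolynomial (Fin (m + 1)) ℂ), IsTail S E ∧
      Rl (io c + ∑ i ∈ S, io (a i) * Y i ^ k i + ∑ i ∈ L, io (b i) * Y i)
        (nform S n k E : MvPowerSeries (Fin (m + 1)) ℂ) := by
  classical
  have hfac : ∀ i, ∃ (n : ℕ) (u : PowerSeries ℂ), PowerSeries.constantCoeff u ≠ 0 ∧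
      (i ∈ S → a i = PowerSeries.X ^ n * u) := by
    intro i
    by_cases hi : i ∈ S
    · obtain ⟨n, u, hu, h⟩ := exists_fac (ha i hi)
      exact ⟨n, u, hu, fun _ => h⟩
    · exact ⟨0, 1, by rw [map_one]; exact one_ne_zero, fun h => absurd h hi⟩
  choose n u hu hau using hfac
  by_cases hL : L = ∅
  · by_cases hc0 : c = 0
    · refine ⟨n, 0, Or.inl rfl, ?_⟩
      have h1 := nf_scale k hk S L hSL a b c n u hu hau 1 (fun _ => 0)
        (by rw [map_one]; exact one_ne_zero) 0 0 (by rw [hc0, map_zero, zero_mul])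
        (fun i hi => by rw [hL] at hi; exact absurd hi (Finset.notMem_empty i))
      rw [nform_coe]
      rw [map_zero, zero_mul] at h1
      exact h1
    · obtain ⟨γ, w, hw, hcw⟩ := exists_fac hc0
      have hγ : 1 ≤ γ := by
        by_contra h
        have h0 : γ = 0 := by omega
        rw [h0, pow_zero, one_mul] at hcw
        rw [hcw] at hc
        exact hw hc
      refine ⟨n, MvPolynomial.X 0 ^ γ, Or.inr (Or.inl ⟨γ, hγ, rfl⟩), ?_⟩
      have h1 := nf_scale k hk S L hSL a b c n u hu hau w (fun _ => 0) hw γ 1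
        (by rw [map_one, one_mul]; exact hcw)
        (fun i hi => by rw [hL] at hi; exact absurd hi (Finset.notMem_empty i))
      rw [nform_coe, MvPolynomial.coe_pow, MvPolynomial.coe_X]
      rw [map_one, one_mul] at h1
      exact h1
  · obtain ⟨i0, hi0, hmin⟩ := exists_dvd_all L (Finset.nonempty_iff_ne_empty.2 hL) b
    by_cases hcase : ∃ c'', PowerSeries.constantCoeff c'' = 0 ∧ c = b i0 * c''
    · obtain ⟨c'', hc'', hcc⟩ := hcase
      obtain ⟨β, v, hv, hbv⟩ := exists_fac (hb i0 hi0)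
      have hex : ∀ i, ∃ e : PowerSeries ℂ, i ∈ L → b i = b i0 * e := by
        intro i
        by_cases hi : i ∈ L
        · obtain ⟨e, he⟩ := hmin i hi
          exact ⟨e, fun _ => he⟩
        · exact ⟨0, fun h => absurd h hi⟩
      choose e he using hex
      have hi0S : i0 ∉ S := fun h => Finset.disjoint_left.1 hSL h hi0
      refine ⟨n, MvPolynomial.X 0 ^ β * MvPolynomial.X i0.succ,
        Or.inr (Or.inr ⟨β, i0, hi0S, rfl⟩), ?_⟩
      obtain ⟨t, ht⟩ := scale k hk u hu (1 : MvPowerSeries (Fin (m + 1)) ℂ)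
        (by rw [map_one]; exact one_ne_zero)
      set ψ : Fin m → MvPowerSeries (Fin (m + 1)) ℂ := fun i => if i ∈ S then Y i * t i else
        if i = i0 then io v⁻¹ * Y i0 - ∑ j ∈ L.erase i0, io (e j) * Y j - io c'' else Y i with hψ
      have hψS : ∀ i ∈ S, ψ i = Y i * t i := fun i hi => by rw [hψ]; simp only [if_pos hi]
      have hψ0 : ψ i0 = io v⁻¹ * Y i0 - ∑ j ∈ L.erase i0, io (e j) * Y j - io c'' := by
        rw [hψ]; simp only [if_neg hi0S, if_true]
      have hψL : ∀ i, i ∉ S → i ≠ i0 → ψ i = Y i := fun i hi hi' => by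
        rw [hψ]; simp only [if_neg hi, if_neg hi']
      have h0 : ∀ i, constantCoeff (ψ i) = 0 := by
        intro i
        by_cases hi : i ∈ S
        · rw [hψS i hi, map_mul, constantCoeff_X, zero_mul]
        · by_cases hi' : i = i0
          · rw [hi', hψ0, map_sub, map_sub, map_mul, constantCoeff_X, mul_zero, map_sum,
              Finset.sum_eq_zero (fun j _ => by rw [map_mul, constantCoeff_X, mul_zero]), const_io,
              hc'', sub_zero, sub_zero]
          · rw [hψL i hi hi', constantCoeff_X]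
      have hlinS : ∀ i ∈ S, ∀ j, lin j.succ (ψ i) = constantCoeff (t i) *
          (if i = j then 1 else 0) := by
        intro i hi j
        rw [hψS i hi, lin_mul, constantCoeff_X, zero_mul, zero_add, lin_X]
        simp only [Fin.succ_inj]
      have hlinL : ∀ i, i ∉ S → i ≠ i0 → ∀ j, lin j.succ (ψ i) = if i = j then 1 else 0 := by
        intro i hi hi' j
        rw [hψL i hi hi', lin_X]
        simp only [Fin.succ_inj]
      have hlin0 : lin i0.succ (ψ i0) = (PowerSeries.constantCoeff v)⁻¹ := by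
        rw [hψ0, lin_sub, lin_sub, lin_io, lin_mul, constantCoeff_X, zero_mul, add_zero,
          const_io, lin_X, if_pos rfl, lin_sum, PowerSeries.constantCoeff_inv,
          Finset.sum_eq_zero (fun j hj => ?_)]
        · ring
        · rw [lin_mul, constantCoeff_X, zero_mul, add_zero, lin_X, if_neg, mul_zero]
          intro h
          exact (Finset.mem_erase.1 hj).1 (Fin.succ_injective _ h)
      have hcoord : IsCoord (mk ψ) := by
        refine mk_coord (fun i => if i = i0 then 1 else 0) (fun i => ?_) (fun i j hij hr => ?_)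
        · by_cases hi : i ∈ S
          · rw [hlinS i hi, if_pos rfl, mul_one]
            exact (ht i).1
          · by_cases hi' : i = i0
            · rw [hi', hlin0]
              exact inv_ne_zero hv
            · rw [hlinL i hi hi', if_pos rfl]
              exact one_ne_zero
        · by_cases hi : i ∈ S
          · rw [hlinS i hi, if_neg hij, mul_zero]
          · by_cases hi' : i = i0
            · exfalso
              rw [if_pos hi', if_neg (fun h => hij (by rw [hi', h]))] at hr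
              omega
            · rw [hlinL i hi hi', if_neg hij]
      obtain ⟨Φ, h1, h2, h3⟩ := coord_hom ψ h0 hcoord
      refine h3 _ _ 1 isUnit_one ?_
      rw [one_mul, map_add, map_add, map_sum, map_sum, h1, nform_coe, MvPolynomial.coe_mul,
        MvPolynomial.coe_pow, MvPolynomial.coe_X, MvPolynomial.coe_X]
      have e1 : ∑ i ∈ S, Φ (io (a i) * Y i ^ k i) = ∑ i ∈ S, X 0 ^ n i * Y i ^ k i := by
        refine Finset.sum_congr rfl fun i hi => ?_
        rw [map_mul, map_pow, h1, h2, hψS i hi, hau i hi, map_mul, map_pow, io_X, mul_pow]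
        linear_combination (X 0 ^ n i * Y i ^ k i) * (ht i).2
      have e2 : ∑ i ∈ L, Φ (io (b i) * Y i) =
          io (b i0) * (ψ i0 + ∑ j ∈ L.erase i0, io (e j) * Y j) := by
        rw [← Finset.add_sum_erase L _ hi0, map_mul, h1, h2, mul_add, Finset.mul_sum]
        congr 1
        refine Finset.sum_congr rfl fun i hi => ?_
        have hi1 := Finset.mem_erase.1 hi
        rw [map_mul, h1, h2, hψL i (fun h => Finset.disjoint_left.1 hSL h hi1.2) hi1.1,
          he i hi1.2, map_mul]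
        ring
      have e3 : (io (b i0) * io v⁻¹ : MvPowerSeries (Fin (m + 1)) ℂ) = X 0 ^ β := by
        rw [← map_mul, hbv, mul_assoc, PowerSeries.mul_inv_cancel _ hv, mul_one, map_pow, io_X]
      rw [e1, e2, hψ0, hcc, map_mul]
      linear_combination (Y i0) * e3
    · -- `c` divides all the `b i`
      have hc0 : c ≠ 0 := fun h => hcase ⟨0, map_zero _, by rw [h, mul_zero]⟩
      have hdvd : c ∣ b i0 := by
        rcases dvd_total' c (b i0) with h | ⟨c'', h⟩
        · exact h
        · have h2 : PowerSeries.constantCoeff c'' ≠ 0 := fun h3 => hcase ⟨c'', h3, h⟩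
          rw [h]
          exact ((isUnit_iff.2 h2).mul_right_dvd).2 dvd_rfl
      obtain ⟨γ, w, hw, hcw⟩ := exists_fac hc0
      have hγ : 1 ≤ γ := by
        by_contra h
        have h0 : γ = 0 := by omega
        rw [h0, pow_zero, one_mul] at hcw
        rw [hcw] at hc
        exact hw hc
      have hex : ∀ i, ∃ e : PowerSeries ℂ, i ∈ L → b i = c * e := by
        intro i
        by_cases hi : i ∈ L
        · obtain ⟨e, he⟩ := hdvd.trans (hmin i hi)
          exact ⟨e, fun _ => he⟩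
        · exact ⟨0, fun h => absurd h hi⟩
      choose e he using hex
      refine ⟨n, MvPolynomial.X 0 ^ γ, Or.inr (Or.inl ⟨γ, hγ, rfl⟩), ?_⟩
      have h1 := nf_scale k hk S L hSL a b c n u hu hau w e hw γ 1
        (by rw [map_one, one_mul]; exact hcw)
        (fun i hi => by rw [he i hi, hcw, map_one]; ring)
      rw [nform_coe, MvPolynomial.coe_pow, MvPolynomial.coe_X]
      rw [map_one, one_mul] at h1
      exact h1

end nf

/-- solving `a φ² + b φ = b y` -/
lemma exists_q (r : PowerSeries ℂ) (i : Fin m) : ∃ q : MvPowerSeries (Fin (m + 1)) ℂ,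
    constantCoeff q ≠ 0 ∧ q + io r * q ^ 2 * Y i = 1 := by
  have h1 : constantCoeff (1 + 4 * io r * Y i : MvPowerSeries (Fin (m + 1)) ℂ) ≠ 0 := by
    rw [map_add, map_one, map_mul, constantCoeff_X, mul_zero, add_zero]
    exact one_ne_zero
  obtain ⟨s0, hs0⟩ := exists_root _ h1 2 two_ne_zero
  have h2 : constantCoeff s0 = 1 ∨ constantCoeff s0 = -1 := by
    have h3 := congrArg constantCoeff hs0
    rw [map_pow, map_add, map_one, map_mul, constantCoeff_X, mul_zero, add_zero] at h3
    have h4 : (constantCoeff s0 - 1) * (constantCoeff s0 + 1) = 0 := by linear_combination h3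
    rcases mul_eq_zero.1 h4 with h5 | h5
    · exact Or.inl (sub_eq_zero.1 h5)
    · exact Or.inr (eq_neg_of_add_eq_zero_left h5)
  obtain ⟨s, hs, hsc⟩ : ∃ s : MvPowerSeries (Fin (m + 1)) ℂ, s ^ 2 = 1 + 4 * io r * Y i ∧
      constantCoeff s = 1 := by
    rcases h2 with h2 | h2
    · exact ⟨s0, hs0, h2⟩
    · exact ⟨-s0, by rw [neg_sq]; exact hs0, by rw [map_neg, h2, neg_neg]⟩
  have hu : IsUnit (1 + s) := isUnit_of_const (by rw [map_add, map_one, hsc]; norm_num)
  obtain ⟨v, hv⟩ := hu.exists_right_inv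
  refine ⟨2 * v, ?_, ?_⟩
  · have h3 := congrArg constantCoeff hv
    rw [map_mul, map_add, map_one, hsc] at h3
    rw [map_mul]
    intro h4
    rcases mul_eq_zero.1 h4 with h5 | h5
    · rw [map_ofNat] at h5
      norm_num at h5
    · rw [h5, mul_zero] at h3
      exact zero_ne_one h3
  · linear_combination (-(v ^ 2)) * hs + (1 + v * (s - 1)) * hv
end Pool.Agent.Zk22.QB
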