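import Pool.Agent.Zk22.QB.Quad
import Pool.Agent.Y229.PS.Unit
import Pool.Agent.W425.SL.Final

set_option autoImplicit false
set_option linter.unusedSectionVars false
set_option linter.unusedVariables false

/-! # Germs of polynomials -/

namespace Pool.Agent.Zk22.QB

open MvPowerSeries
open Pool.Agent.Y229.GL (IsCoord formal_local)
open Pool.Agent.Y229.PS (IsFormalBFunction coordB formal_of_unit local_of_formal formal_of_local
  DI_subst)
open Pool.Agent.H628R4.TP (IsBFunction IsLocalBFunction)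
open Pool.Agent.W425.SM (sparse SmoothFan Principal)
open Pool.Agent.W425.SL (topZetaSparseLocal)

section
variable {N : ℕ}

/-- the polynomial `f(p + x)` -/
noncomputable def translate (p : Fin N → ℂ) (f : MvPolynomial (Fin N) ℂ) :
    MvPolynomial (Fin N) ℂ :=
  MvPolynomial.aeval (fun i => MvPolynomial.C (p i) + MvPolynomial.X i) f

lemma translate_const (p : Fin N → ℂ) (f : MvPolynomial (Fin N) ℂ) :
    MvPolynomial.constantCoeff (translate p f) = MvPolynomial.eval p f := by
  unfold translate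
  induction f using MvPolynomial.induction_on with
  | C a =>
    rw [MvPolynomial.eval_C, ← MvPolynomial.algebraMap_eq, AlgHom.commutes,
      MvPolynomial.algebraMap_eq, MvPolynomial.constantCoeff_C]
  | add f g h1 h2 => rw [map_add, map_add, map_add, h1, h2]
  | mul_X f i h1 =>
    rw [map_mul, map_mul, map_mul, h1, MvPolynomial.aeval_X, map_add, MvPolynomial.constantCoeff_C,
      MvPolynomial.constantCoeff_X, add_zero, MvPolynomial.eval_X]

lemma translate_inv (p : Fin N → ℂ) (f : MvPolynomial (Fin N) ℂ) :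
    translate (-p) (translate p f) = f := by
  unfold translate
  induction f using MvPolynomial.induction_on with
  | C a => rw [← MvPolynomial.algebraMap_eq, AlgHom.commutes, AlgHom.commutes]
  | add f g h1 h2 => rw [map_add, map_add, h1, h2]
  | mul_X f i h1 =>
    rw [map_mul, map_mul, h1, MvPolynomial.aeval_X, map_add, MvPolynomial.aeval_X,
      ← MvPolynomial.algebraMap_eq, AlgHom.commutes, MvPolynomial.algebraMap_eq, Pi.neg_apply,
      map_neg]
    ring

lemma translate_ne {p : Fin N → ℂ} {f : MvPolynomial (Fin N) ℂ} (hf : f ≠ 0) :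
    translate p f ≠ 0 := by
  intro h
  apply hf
  rw [← translate_inv p f, h]
  unfold translate
  rw [map_zero]

lemma coe_aeval (Φ : Fin N → MvPolynomial (Fin N) ℂ) (f : MvPolynomial (Fin N) ℂ) :
    (MvPolynomial.aeval (fun i => ((Φ i : MvPolynomial (Fin N) ℂ) : MvPowerSeries (Fin N) ℂ)) f :
      MvPowerSeries (Fin N) ℂ) = ((MvPolynomial.aeval Φ f : MvPolynomial (Fin N) ℂ) :
        MvPowerSeries (Fin N) ℂ) := by
  have h2 := MvPolynomial.comp_aeval_apply (R := ℂ) (f := Φ)
    (φ := MvPolynomial.coeToMvPowerSeries.algHom ℂ (σ := Fin N) (R := ℂ)) f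
  simp only [MvPolynomial.coeToMvPowerSeries.algHom_apply, Algebra.algebraMap_self,
    MvPowerSeries.map_id, RingHom.id_apply] at h2
  exact h2.symm

lemma coord_shift (p : Fin N → ℂ) : IsCoord (fun i => ((MvPolynomial.C (p i) +
    MvPolynomial.X i : MvPolynomial (Fin N) ℂ) : MvPowerSeries (Fin N) ℂ)) := by
  classical
  rw [isCoord_iff]
  refine det_ne_of_rank _ (fun _ => 0) (fun i => ?_) (fun i j hij _ => ?_)
  · rw [Matrix.of_apply, MvPolynomial.coe_add, MvPolynomial.coe_C, MvPolynomial.coe_X, lin_add,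
      lin_X, if_pos rfl]
    have : lin i (C (p i) : MvPowerSeries (Fin N) ℂ) = 0 := by
      rw [lin_eq, pderiv_C, map_zero]
    rw [this, zero_add]
    exact one_ne_zero
  · rw [Matrix.of_apply, MvPolynomial.coe_add, MvPolynomial.coe_C, MvPolynomial.coe_X, lin_add,
      lin_X, if_neg hij]
    have : lin j (C (p i) : MvPowerSeries (Fin N) ℂ) = 0 := by
      rw [lin_eq, pderiv_C, map_zero]
    rw [this, zero_add]

/-- **Functional equations of the germs.** -/
theorem translate_local (p : Fin N → ℂ) {f : MvPolynomial (Fin N) ℂ} {b : Polynomial ℂ}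
    (hb : IsBFunction f b) : IsLocalBFunction (translate p f) b :=
  formal_local hb (coord_shift p) (coe_aeval _ f)

/-- The germ of the polynomial `f` at the point `p` becomes the polynomial `G`, in suitable formal
coordinates `φ` at `p` (with the origin at `p`), and up to a factor `u` which is a unit:
`f(p + φ) = u G`. -/
def BecomesAt (f : MvPolynomial (Fin N) ℂ) (p : Fin N → ℂ) (G : MvPolynomial (Fin N) ℂ) : Prop :=
  ∃ (φ : Fin N → MvPowerSeries (Fin N) ℂ) (u : MvPowerSeries (Fin N) ℂ),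
    IsCoord φ ∧ (∀ i, constantCoeff (φ i) = 0) ∧ IsUnit u ∧
    subst φ ((translate p f : MvPolynomial (Fin N) ℂ) : MvPowerSeries (Fin N) ℂ) =
      u * (G : MvPowerSeries (Fin N) ℂ)

lemma becomesAt_iff {f : MvPolynomial (Fin N) ℂ} {p : Fin N → ℂ} {G : MvPolynomial (Fin N) ℂ} :
    BecomesAt f p G ↔ Rl ((translate p f : MvPolynomial (Fin N) ℂ) : MvPowerSeries (Fin N) ℂ)
      (G : MvPowerSeries (Fin N) ℂ) := Iff.rfl

theorem local_of_becomes {f : MvPolynomial (Fin N) ℂ} {p : Fin N → ℂ}
    {G : MvPolynomial (Fin N) ℂ} (h : BecomesAt f p G) {b : Polynomial ℂ}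
    (hb : IsBFunction f b) : IsLocalBFunction G b := by
  obtain ⟨φ, u, hφ, hφ0, hu, e⟩ := h
  obtain ⟨u, rfl⟩ := hu
  have h1 := coordB hφ hφ0 (formal_of_local (translate_local p hb))
  rw [e] at h1
  exact local_of_formal (formal_of_unit (Units.inv_mul u) h1)

/-- substitution of coordinates is injective -/
theorem subst_inj {φ : Fin N → MvPowerSeries (Fin N) ℂ} (hφ : IsCoord φ)
    (hφ0 : ∀ i, constantCoeff (φ i) = 0) {g : MvPowerSeries (Fin N) ℂ} (h : subst φ g = 0) :
    g = 0 := by
  classical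
  have key : ∀ (k : ℕ) (e : Fin N →₀ ℕ), e.degree = k → ∀ g : MvPowerSeries (Fin N) ℂ,
      subst φ g = 0 → coeff e g = 0 := by
    intro k
    induction k with
    | zero =>
      intro e he g hg
      have he0 : e = 0 := by rwa [Finsupp.degree_eq_zero_iff] at he
      rw [he0, coeff_zero_eq_constantCoeff_apply, ← const_subst hφ0 g, hg, map_zero]
    | succ k ih =>
      intro e he g hg
      obtain ⟨i, hi⟩ : ∃ i, e i ≠ 0 := by
        by_contra hcon
        push Not at hcon
        have : e = 0 := Finsupp.ext hcon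
        rw [this, map_zero] at he
        omega
      have he' : e = (e - Finsupp.single i 1) + Finsupp.single i 1 := by
        ext j
        rw [Finsupp.add_apply, Finsupp.tsub_apply]
        by_cases hj : j = i
        · subst hj
          rw [Finsupp.single_eq_same]
          omega
        · rw [Finsupp.single_eq_of_ne hj]
          omega
      have hd : (e - Finsupp.single i 1).degree = k := by
        have h1 := congrArg Finsupp.degree he'
        rw [map_add, Finsupp.degree_single, he] at h1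
        omega
      have h1 : subst φ (pderiv ℂ i g) = 0 := by
        rw [← DI_subst hφ hφ0, hg, map_zero]
      have h2 := ih _ hd _ h1
      rw [coeff_pderiv, ← he'] at h2
      rcases mul_eq_zero.1 h2 with h3 | h3
      · exact h3
      · exfalso
        exact Nat.cast_add_one_ne_zero ((e - Finsupp.single i 1 : Fin N →₀ ℕ) i) h3
  ext e
  rw [map_zero]
  exact key _ e rfl g h

end

section
variable {m : ℕ}

/-- polynomials of degree at most two in the `y` -/
theorem translate_D (p : Fin (m + 1) → ℂ) (f : MvPolynomial (Fin (m + 1)) ℂ)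
    (hf : ∀ d ∈ f.support, ∑ i : Fin m, d i.succ ≤ 2) :
    ((translate p f : MvPolynomial (Fin (m + 1)) ℂ) : MvPowerSeries (Fin (m + 1)) ℂ) ∈ D m 2 := by
  unfold translate
  rw [← coe_aeval, MvPolynomial.aeval_def, MvPolynomial.eval₂_eq']
  refine AddSubgroup.sum_mem _ fun d hd => ?_
  have h1 : (algebraMap ℂ (MvPowerSeries (Fin (m + 1)) ℂ)) (MvPolynomial.coeff d f) ∈ D m 0 :=
    D_C _
  have h2 : ∏ i, (((MvPolynomial.C (p i) + MvPolynomial.X i : MvPolynomial (Fin (m + 1)) ℂ) :
      MvPowerSeries (Fin (m + 1)) ℂ)) ^ d i ∈ D m (0 + ∑ i : Fin m, d i.succ) := by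
    rw [Fin.prod_univ_succ]
    refine D_mul ?_ ?_
    · have h3 : (((MvPolynomial.C (p 0) + MvPolynomial.X 0 : MvPolynomial (Fin (m + 1)) ℂ) :
          MvPowerSeries (Fin (m + 1)) ℂ)) ∈ D m 0 := by
        rw [MvPolynomial.coe_add, MvPolynomial.coe_C, MvPolynomial.coe_X]
        refine AddSubgroup.add_mem _ (D_C _) ?_
        rw [← io_X]
        exact D_io _
      have h4 := D_pow h3 (d 0)
      rwa [mul_zero] at h4
    · refine D_prod _ _ _ fun i _ => ?_
      have h3 : (((MvPolynomial.C (p i.succ) + MvPolynomial.X i.succ :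
          MvPolynomial (Fin (m + 1)) ℂ) : MvPowerSeries (Fin (m + 1)) ℂ)) ∈ D m 1 := by
        rw [MvPolynomial.coe_add, MvPolynomial.coe_C, MvPolynomial.coe_X]
        exact AddSubgroup.add_mem _ (D_mono (Nat.zero_le 1) (D_C _)) (D_Y i)
      have h4 := D_pow h3 (d i.succ)
      rwa [mul_one] at h4
  have h3 := D_mul h1 h2
  exact D_mono (by have := hf d hd; omega) h3

/-- **Normal forms of the germs of polynomials of degree at most two in the `y`.** -/
theorem becomes_nform (f : MvPolynomial (Fin (m + 1)) ℂ)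
    (hf : ∀ d ∈ f.support, ∑ i : Fin m, d i.succ ≤ 2) (hf0 : f ≠ 0) (p : Fin (m + 1) → ℂ)
    (hp : MvPolynomial.eval p f = 0) :
    ∃ (S : Finset (Fin m)) (n : Fin m → ℕ) (E : MvPolynomial (Fin (m + 1)) ℂ), IsTail S E ∧
      (S.Nonempty ∨ E ≠ 0) ∧ BecomesAt f p (nform S n (fun _ => 2) E) := by
  have h0 : constantCoeff ((translate p f : MvPolynomial (Fin (m + 1)) ℂ) :
      MvPowerSeries (Fin (m + 1)) ℂ) = 0 := by
    rw [← coeff_zero_eq_constantCoeff_apply, MvPolynomial.coeff_coe,
      ← MvPolynomial.constantCoeff_eq, translate_const, hp]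
  obtain ⟨S, n, E, hE, h1⟩ := quad_nf (translate_D p f hf) h0
  refine ⟨S, n, E, hE, ?_, h1⟩
  by_contra hcon
  push Not at hcon
  obtain ⟨h2, h3⟩ := hcon
  have h4 : ((nform S n (fun _ => 2) E : MvPolynomial (Fin (m + 1)) ℂ) :
      MvPowerSeries (Fin (m + 1)) ℂ) = 0 := by
    rw [nform_coe, h3, h2, Finset.sum_empty, MvPolynomial.coe_zero,
      add_zero]
  obtain ⟨φ, hφ, hφ0, h5⟩ := h1.ne_zero h4
  have h6 := subst_inj hφ hφ0 h5
  exact translate_ne hf0 (MvPolynomial.coe_injective (Fin (m + 1)) ℂ (by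
    rw [h6, MvPolynomial.coe_zero]))

/-! ### Exponents -/

/-- the exponent of `x^(n i) y_i^(k i)` -/
def wt (n k : Fin m → ℕ) (i : Fin m) : Fin (m + 1) → ℕ := Fin.cons (n i) (Pi.single i (k i))

lemma mon_wt (n k : Fin m → ℕ) (i : Fin m) :
    (∏ l, MvPolynomial.X l ^ wt n k i l : MvPolynomial (Fin (m + 1)) ℂ) =
      MvPolynomial.X 0 ^ n i * MvPolynomial.X i.succ ^ k i := by
  classical
  rw [Fin.prod_univ_succ]
  unfold wt
  rw [Fin.cons_zero, Finset.prod_eq_single i]
  · rw [Fin.cons_succ, Pi.single_eq_same]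
  · intro j _ hj
    rw [Fin.cons_succ, Pi.single_eq_of_ne hj, pow_zero]
  · exact fun h => absurd (Finset.mem_univ _) h

/-- the exponents of the terms in `S` -/
noncomputable def vS (S : Finset (Fin m)) (n k : Fin m → ℕ) (j : Fin S.card) :
    Fin (m + 1) → ℕ := wt n k (S.equivFin.symm j)

lemma sum_vS (S : Finset (Fin m)) (n k : Fin m → ℕ) :
    ∑ j, (∏ l, MvPolynomial.X l ^ vS S n k j l : MvPolynomial (Fin (m + 1)) ℂ) =
      ∑ i ∈ S, MvPolynomial.X 0 ^ n i * MvPolynomial.X i.succ ^ k i := by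
  have h1 := Equiv.sum_comp S.equivFin.symm (fun i : S =>
    (MvPolynomial.X 0 ^ n i * MvPolynomial.X (i : Fin m).succ ^ k i :
      MvPolynomial (Fin (m + 1)) ℂ))
  rw [Finset.sum_coe_sort S (fun i => (MvPolynomial.X 0 ^ n i * MvPolynomial.X i.succ ^ k i :
    MvPolynomial (Fin (m + 1)) ℂ))] at h1
  rw [← h1]
  exact Finset.sum_congr rfl fun j _ => mon_wt n k _

lemma vS_zero (S : Finset (Fin m)) (n k : Fin m → ℕ) (g : Fin S.card → ℚ) (j0 : Fin S.card) :
    (∑ j, g j * (vS S n k j ((S.equivFin.symm j0 : Fin m).succ) : ℚ)) =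
      g j0 * k (S.equivFin.symm j0) := by
  rw [Finset.sum_eq_single j0]
  · unfold vS wt
    rw [Fin.cons_succ, Pi.single_eq_same]
  · intro j _ hj
    unfold vS wt
    rw [Fin.cons_succ, Pi.single_eq_of_ne, Nat.cast_zero, mul_zero]
    intro h
    exact hj (S.equivFin.symm.injective (Subtype.ext h)).symm
  · exact fun h => absurd (Finset.mem_univ _) h

theorem ind_S (S : Finset (Fin m)) (n k : Fin m → ℕ) (hk : ∀ i, k i ≠ 0) :
    LinearIndependent ℚ (fun j => (fun i => (vS S n k j i : ℚ) : Fin (m + 1) → ℚ)) := by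
  rw [Fintype.linearIndependent_iff]
  intro g hg j0
  have h1 := congrFun hg ((S.equivFin.symm j0 : Fin m).succ)
  rw [Finset.sum_apply] at h1
  simp only [Pi.smul_apply, smul_eq_mul, Pi.zero_apply] at h1
  rw [vS_zero] at h1
  exact (mul_eq_zero.1 h1).resolve_right (by exact_mod_cast hk _)

theorem ind_cons (S : Finset (Fin m)) (n k : Fin m → ℕ) (hk : ∀ i, k i ≠ 0)
    (e : Fin (m + 1) → ℕ) (he : e ≠ 0) (heS : ∀ i ∈ S, e i.succ = 0) :
    LinearIndependent ℚ (fun j : Fin (S.card + 1) =>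
      (fun i => (((Fin.cons e (vS S n k) : Fin (S.card + 1) → Fin (m + 1) → ℕ) j i : ℕ) : ℚ) :
        Fin (m + 1) → ℚ)) := by
  rw [Fintype.linearIndependent_iff]
  intro g hg
  have h0 : ∀ i : Fin (m + 1), g 0 * (e i : ℚ) + ∑ j, g (Fin.succ j) * (vS S n k j i : ℚ) = 0 := by
    intro i
    have h1 := congrFun hg i
    rw [Finset.sum_apply, Fin.sum_univ_succ] at h1
    simp only [Pi.smul_apply, smul_eq_mul, Pi.zero_apply, Fin.cons_zero, Fin.cons_succ] at h1
    exact h1
  have h2 : ∀ j0, g (Fin.succ j0) = 0 := by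
    intro j0
    have h1 := h0 ((S.equivFin.symm j0 : Fin m).succ)
    rw [vS_zero S n k (fun j => g (Fin.succ j)), heS _ (S.equivFin.symm j0).2, Nat.cast_zero,
      mul_zero, zero_add] at h1
    exact (mul_eq_zero.1 h1).resolve_right (by exact_mod_cast hk _)
  obtain ⟨i, hi⟩ := Function.ne_iff.1 he
  have h3 : g 0 = 0 := by
    have h1 := h0 i
    rw [Finset.sum_eq_zero (fun j _ => by rw [h2 j, zero_mul]), add_zero] at h1
    exact (mul_eq_zero.1 h1).resolve_right (by exact_mod_cast hi)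
  exact fun j => Fin.cases h3 h2 j

/-- **The normal forms are sums of monomials with linearly independent exponents.** -/
theorem exists_exp (S : Finset (Fin m)) (n k : Fin m → ℕ) (hk : ∀ i, k i ≠ 0)
    (E : MvPolynomial (Fin (m + 1)) ℂ) (hE : IsTail S E) (hne : S.Nonempty ∨ E ≠ 0) :
    ∃ (r : ℕ) (v : Fin r → Fin (m + 1) → ℕ), 1 ≤ r ∧
      LinearIndependent ℚ (fun j => (fun i => (v j i : ℚ) : Fin (m + 1) → ℚ)) ∧
      sparse v (fun _ => 1) = nform S n k E := by
  classical
  have hsp : ∀ {r : ℕ} (v : Fin r → Fin (m + 1) → ℕ),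
      sparse v (fun _ => 1) = ∑ j, ∏ l, MvPolynomial.X l ^ v j l := by
    intro r v
    unfold sparse
    exact Finset.sum_congr rfl fun j _ => by rw [map_one, one_mul]
  by_cases hE0 : E = 0
  · subst hE0
    have hS : S.Nonempty := hne.resolve_right (fun h => h rfl)
    refine ⟨S.card, vS S n k, hS.card_pos, ind_S S n k hk, ?_⟩
    rw [hsp, sum_vS]
    unfold nform
    rw [add_zero]
  · obtain ⟨e, he, heS, hmon⟩ : ∃ e : Fin (m + 1) → ℕ, e ≠ 0 ∧ (∀ i ∈ S, e i.succ = 0) ∧
        (∏ l, MvPolynomial.X l ^ e l : MvPolynomial (Fin (m + 1)) ℂ) = E := by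
      rcases hE with h | ⟨γ, hγ, h⟩ | ⟨β, j, hj, h⟩
      · exact absurd h hE0
      · refine ⟨Fin.cons γ 0, ?_, ?_, ?_⟩
        · intro h1
          have h2 := congrFun h1 0
          rw [Fin.cons_zero, Pi.zero_apply] at h2
          omega
        · intro i _
          rw [Fin.cons_succ, Pi.zero_apply]
        · rw [Fin.prod_univ_succ, Fin.cons_zero, h, Finset.prod_eq_one, mul_one]
          intro l _
          rw [Fin.cons_succ, Pi.zero_apply, pow_zero]
      · refine ⟨wt (fun _ => β) (fun _ => 1) j, ?_, ?_, ?_⟩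
        · intro h1
          have h2 := congrFun h1 j.succ
          unfold wt at h2
          rw [Fin.cons_succ, Pi.single_eq_same, Pi.zero_apply] at h2
          exact one_ne_zero h2
        · intro i hi
          unfold wt
          rw [Fin.cons_succ, Pi.single_eq_of_ne]
          rintro rfl
          exact hj hi
        · rw [mon_wt, h, pow_one]
    refine ⟨S.card + 1, Fin.cons e (vS S n k), by omega, ind_cons S n k hk e he heS, ?_⟩
    rw [hsp, Fin.sum_univ_succ]
    simp only [Fin.cons_zero, Fin.cons_succ]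
    rw [sum_vS, hmon]
    unfold nform
    exact add_comm _ _

open Polynomial in
/-- **The local zeta functions.** -/
theorem local_zeta {N r : ℕ} (f : MvPolynomial (Fin N) ℂ) {b : ℂ[X]} (hb : IsBFunction f b)
    (p : Fin N → ℂ) (hr : 1 ≤ r) (v : Fin r → Fin N → ℕ)
    (hv : LinearIndependent ℚ (fun j => (fun i => (v j i : ℚ) : Fin N → ℚ)))
    (hG : BecomesAt f p (sparse v fun _ => 1)) (R : SmoothFan N) (hR : Principal v R) :
    ∃ P : ℂ[X], algebraMap ℂ[X] (RatFunc ℂ) b * topZetaSparseLocal v R =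
      algebraMap ℂ[X] (RatFunc ℂ) P := by
  refine Pool.Agent.W425.SL.final hr v (fun _ => 1) hv.affineIndependent (fun j h => ?_)
    (fun _ => one_ne_zero) R hR b (local_of_becomes hG hb)
  refine hv.ne_zero j ?_
  funext i
  rw [h]
  simp

open Polynomial in
/-- **The global zeta functions.** -/
theorem global_zeta {N : ℕ} (f : MvPolynomial (Fin N) ℂ) {b : ℂ[X]} (hb : IsBFunction f b)
    {ι : Type} [Fintype ι] (p : ι → Fin N → ℂ) (r : ι → ℕ) (hr : ∀ t, 1 ≤ r t)
    (v : ∀ t, Fin (r t) → Fin N → ℕ)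
    (hv : ∀ t, LinearIndependent ℚ (fun j => (fun i => (v t j i : ℚ) : Fin N → ℚ)))
    (hG : ∀ t, BecomesAt f (p t) (sparse (v t) fun _ => 1)) (R : ι → SmoothFan N)
    (hR : ∀ t, Principal (v t) (R t)) (χ₀ : ℤ) (χ : ι → ℤ) :
    ∃ P : ℂ[X], algebraMap ℂ[X] (RatFunc ℂ) b *
      ((χ₀ : RatFunc ℂ) + ∑ t, (χ t : RatFunc ℂ) * topZetaSparseLocal (v t) (R t)) =
      algebraMap ℂ[X] (RatFunc ℂ) P := by
  choose P hP using fun t => local_zeta f hb (p t) (hr t) (v t) (hv t) (hG t) (R t) (hR t)
  refine ⟨b * (χ₀ : ℂ[X]) + ∑ t, (χ t : ℂ[X]) * P t, ?_⟩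
  rw [map_add, map_mul, map_intCast, map_sum, mul_add, Finset.mul_sum]
  congr 1
  refine Finset.sum_congr rfl fun t _ => ?_
  rw [map_mul, map_intCast, ← hP t]
  ring

end

end Pool.Agent.Zk22.QB
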