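import Pool.Agent.Zk22.QB.Normal

set_option autoImplicit false
set_option linter.unusedSectionVars false
set_option linter.unusedVariables false

/-! # Polynomials of degree at most two in all but one of the variables -/

namespace Pool.Agent.Zk22.QB

open MvPowerSeries
open Pool.Agent.Y229.GL (IsCoord)

variable {m : ℕ}

/-- completing the squares -/
theorem stepA (a b : Fin m → PowerSeries ℂ) (c : PowerSeries ℂ)
    (hc : PowerSeries.constantCoeff c = 0) :
    ∃ (S L : Finset (Fin m)) (c' : PowerSeries ℂ), Disjoint S L ∧ (∀ i ∈ S, a i ≠ 0) ∧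
      (∀ i ∈ L, b i ≠ 0) ∧ PowerSeries.constantCoeff c' = 0 ∧
      Rl (io c + ∑ i, (io (a i) * Y i ^ 2 + io (b i) * Y i))
        (io c' + ∑ i ∈ S, io (a i) * Y i ^ 2 + ∑ i ∈ L, io (b i) * Y i :
          MvPowerSeries (Fin (m + 1)) ℂ) := by
  classical
  set S : Finset (Fin m) := Finset.univ.filter fun i => a i ≠ 0 ∧
    ∃ s, PowerSeries.constantCoeff s = 0 ∧ b i = 2 * a i * s with hS
  set L : Finset (Fin m) := Finset.univ.filter fun i => i ∉ S ∧ b i ≠ 0 with hL
  have hs : ∀ i, ∃ s : PowerSeries ℂ, PowerSeries.constantCoeff s = 0 ∧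
      (i ∈ S → b i = 2 * a i * s) := by
    intro i
    by_cases hi : i ∈ S
    · obtain ⟨s, h1, h2⟩ := (Finset.mem_filter.1 hi).2.2
      exact ⟨s, h1, fun _ => h2⟩
    · exact ⟨0, map_zero _, fun h => absurd h hi⟩
  choose s hs0 hs1 using hs
  have hr : ∀ i, ∃ r : PowerSeries ℂ, i ∉ S → a i = b i * r := by
    intro i
    by_cases hi : i ∈ S
    · exact ⟨0, fun h => absurd hi h⟩
    · by_cases ha : a i = 0
      · exact ⟨0, fun _ => by rw [ha, mul_zero]⟩
      · have hno : ¬ ∃ s, PowerSeries.constantCoeff s = 0 ∧ b i = 2 * a i * s := fun h =>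
          hi (Finset.mem_filter.2 ⟨Finset.mem_univ _, ha, h⟩)
        have h2u : IsUnit (2 : PowerSeries ℂ) := by
          rw [isUnit_iff, map_ofNat]
          exact two_ne_zero
        have key : b i ∣ 2 * a i := by
          rcases dvd_total' (b i) (2 * a i) with h | ⟨t, h⟩
          · exact h
          · have h2 : PowerSeries.constantCoeff t ≠ 0 := fun h3 => hno ⟨t, h3, h⟩
            rw [h]
            exact ((isUnit_iff.2 h2).mul_right_dvd).2 dvd_rfl
        obtain ⟨r, hr⟩ := (h2u.dvd_mul_left).1 key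
        exact ⟨r, fun _ => hr⟩
  choose r hr using hr
  have hq : ∀ i, ∃ q : MvPowerSeries (Fin (m + 1)) ℂ,
    constantCoeff q ≠ 0 ∧ q + io (r i) * q ^ 2 * Y i = 1 := fun i => exists_q (r i) i
  choose q hq0 hq1 using hq
  set ψ : Fin m → MvPowerSeries (Fin (m + 1)) ℂ := fun i => if i ∈ S then Y i - io (s i)
    else Y i * q i with hψ
  have hψS : ∀ i ∈ S, ψ i = Y i - io (s i) := fun i hi => by rw [hψ]; simp only [if_pos hi]
  have hψL : ∀ i, i ∉ S → ψ i = Y i * q i := fun i hi => by rw [hψ]; simp only [if_neg hi]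
  have h0 : ∀ i, constantCoeff (ψ i) = 0 := by
    intro i
    by_cases hi : i ∈ S
    · rw [hψS i hi, map_sub, constantCoeff_X, const_io, hs0, sub_zero]
    · rw [hψL i hi, map_mul, constantCoeff_X, zero_mul]
  have hlin : ∀ i j, lin j.succ (ψ i) = (if i ∈ S then 1 else constantCoeff (q i)) *
      (if i = j then 1 else 0) := by
    intro i j
    by_cases hi : i ∈ S
    · rw [hψS i hi, if_pos hi, lin_sub, lin_X, lin_io, sub_zero, one_mul]
      simp only [Fin.succ_inj]
    · rw [hψL i hi, if_neg hi, lin_mul, constantCoeff_X, zero_mul, zero_add, lin_X]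
      congr 1
      simp only [Fin.succ_inj]
  have hcoord : IsCoord (mk ψ) := by
    refine mk_coord (fun _ => 0) (fun i => ?_) (fun i j hij _ => ?_)
    · rw [hlin, if_pos rfl, mul_one]
      split_ifs
      · exact one_ne_zero
      · exact hq0 i
    · rw [hlin, if_neg hij, mul_zero]
  obtain ⟨Φ, h1, h2, h3⟩ := coord_hom ψ h0 hcoord
  refine ⟨S, L, c - ∑ i ∈ S, a i * s i ^ 2, ?_, fun i hi => (Finset.mem_filter.1 hi).2.1,
    fun i hi => (Finset.mem_filter.1 hi).2.2, ?_, h3 _ _ 1 isUnit_one ?_⟩
  · rw [Finset.disjoint_left]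
    exact fun i h4 h5 => (Finset.mem_filter.1 h5).2.1 h4
  · rw [map_sub, hc, map_sum, Finset.sum_eq_zero (fun i _ => by
      rw [map_mul, map_pow, hs0, zero_pow two_ne_zero, mul_zero]), sub_zero]
  · rw [one_mul, map_add, map_sum, h1]
    have hterm : ∀ i, Φ (io (a i) * Y i ^ 2 + io (b i) * Y i) =
        (if i ∈ S then io (a i) * Y i ^ 2 - io (a i * s i ^ 2) else 0) +
          (if i ∈ L then io (b i) * Y i else 0) := by
      intro i
      rw [map_add, map_mul, map_mul, map_pow, h1, h1, h2]
      by_cases hi : i ∈ S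
      · have hi2 : i ∉ L := fun h => (Finset.mem_filter.1 h).2.1 hi
        rw [if_pos hi, if_neg hi2, add_zero, hψS i hi, hs1 i hi]
        simp only [map_mul, map_pow, map_ofNat]
        ring
      · rw [if_neg hi, zero_add, hψL i hi]
        have e1 : io (a i) * (Y i * q i) ^ 2 + io (b i) * (Y i * q i) =
            (io (b i) * Y i : MvPowerSeries (Fin (m + 1)) ℂ) := by
          rw [hr i hi, map_mul]
          linear_combination (io (b i) * Y i) * hq1 i
        rw [e1]
        split_ifs with hi2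
        · rfl
        · have hb0 : b i = 0 := by
            by_contra hb
            exact hi2 (Finset.mem_filter.2 ⟨Finset.mem_univ _, hi, hb⟩)
          rw [hb0, map_zero, zero_mul]
    rw [Finset.sum_congr rfl fun i _ => hterm i, Finset.sum_add_distrib, Finset.sum_ite_mem,
      Finset.sum_ite_mem, Finset.univ_inter, Finset.univ_inter, Finset.sum_sub_distrib, map_sub,
      map_sum]
    ring

/-- diagonalisation of the quadratic part -/
theorem stepT (A : Matrix (Fin m) (Fin m) (PowerSeries ℂ)) (hA : A.IsSymm)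
    (b : Fin m → PowerSeries ℂ) (c : PowerSeries ℂ) :
    ∃ a b' : Fin m → PowerSeries ℂ,
      Rl (io c + ∑ i, io (b i) * Y i + ∑ i, ∑ l, io (A i l) * Y i * Y l)
        (io c + ∑ i, (io (a i) * Y i ^ 2 + io (b' i) * Y i) :
          MvPowerSeries (Fin (m + 1)) ℂ) := by
  classical
  obtain ⟨P, a, hP, hdiag⟩ := diag A hA
  set ψ : Fin m → MvPowerSeries (Fin (m + 1)) ℂ := fun i => ∑ j, io (P i j) * Y j with hψ
  have h0 : ∀ i, constantCoeff (ψ i) = 0 := by
    intro i
    rw [hψ]
    simp only
    rw [map_sum]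
    exact Finset.sum_eq_zero fun j _ => by rw [map_mul, constantCoeff_X, mul_zero]
  have hlin : ∀ i j, lin j.succ (ψ i) = PowerSeries.constantCoeff (P i j) := by
    intro i j
    rw [hψ]
    simp only
    rw [lin_sum, Finset.sum_eq_single j]
    · rw [lin_mul, constantCoeff_X, zero_mul, add_zero, const_io, lin_X, if_pos rfl, mul_one]
    · intro k _ hk
      rw [lin_mul, constantCoeff_X, zero_mul, add_zero, lin_X, if_neg, mul_zero]
      exact fun h => hk (Fin.succ_injective _ h)
    · exact fun h => absurd (Finset.mem_univ _) h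
  have hcoord : IsCoord (mk ψ) := by
    rw [isCoord_iff, Matrix.det_succ_row_zero, Finset.sum_eq_single 0]
    · have e1 : ((Matrix.of fun i j => lin j (mk ψ i)).submatrix Fin.succ (Fin.succAbove 0)) =
          (PowerSeries.constantCoeff (R := ℂ)).mapMatrix P := by
        ext i j
        rw [Matrix.submatrix_apply, Matrix.of_apply, Fin.succAbove_zero, RingHom.mapMatrix_apply,
          Matrix.map_apply, ← hlin i j]
        rfl
      rw [e1, ← RingHom.map_det]
      have e2 : (Matrix.of fun i j => lin j (mk ψ i)) 0 0 = 1 := by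
        rw [Matrix.of_apply]
        change lin 0 (X 0) = 1
        rw [lin_X, if_pos rfl]
      rw [e2]
      have h5 := isUnit_iff.1 hP
      simpa using h5
    · intro j _ hj
      have e2 : (Matrix.of fun i j => lin j (mk ψ i)) 0 j = 0 := by
        rw [Matrix.of_apply]
        change lin j (X 0) = 0
        rw [lin_X, if_neg (Ne.symm hj)]
      rw [e2]
      ring
    · exact fun h => absurd (Finset.mem_univ _) h
  obtain ⟨Φ, h1, h2, h3⟩ := coord_hom ψ h0 hcoord
  refine ⟨a, fun j => ∑ i, b i * P i j, h3 _ _ 1 isUnit_one ?_⟩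
  rw [one_mul, map_add, map_add, map_sum, map_sum, h1]
  have e1 : ∑ i, Φ (io (b i) * Y i) = ∑ j, io (∑ i, b i * P i j) * Y j := by
    have : ∀ j, io (∑ i, b i * P i j) * Y j = ∑ i, (io (b i) * io (P i j) * Y j :
        MvPowerSeries (Fin (m + 1)) ℂ) := by
      intro j
      rw [map_sum, Finset.sum_mul]
      exact Finset.sum_congr rfl fun i _ => by rw [map_mul]
    rw [Finset.sum_congr rfl fun j _ => this j, Finset.sum_comm]
    refine Finset.sum_congr rfl fun i _ => ?_
    rw [map_mul, h1, h2, hψ]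
    simp only
    rw [Finset.mul_sum]
    exact Finset.sum_congr rfl fun j _ => by ring
  have e2 : ∑ i, Φ (∑ l, io (A i l) * Y i * Y l) = ∑ j, (io (a j) * Y j ^ 2 :
      MvPowerSeries (Fin (m + 1)) ℂ) := by
    have s1 : ∀ i, Φ (∑ l, io (A i l) * Y i * Y l) = ∑ l, ∑ j, ∑ k,
        (io (P i j * A i l * P l k) * (Y j * Y k) : MvPowerSeries (Fin (m + 1)) ℂ) := by
      intro i
      rw [map_sum]
      refine Finset.sum_congr rfl fun l _ => ?_
      rw [map_mul, map_mul, h1, h2, h2, hψ]
      simp only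
      rw [mul_assoc, Finset.sum_mul_sum, Finset.mul_sum]
      refine Finset.sum_congr rfl fun j _ => ?_
      rw [Finset.mul_sum]
      refine Finset.sum_congr rfl fun k _ => ?_
      rw [map_mul, map_mul]
      ring
    rw [Finset.sum_congr rfl fun i _ => s1 i]
    -- reorder the sums
    have s2 : ∑ i, ∑ l, ∑ j, ∑ k,
        (io (P i j * A i l * P l k) * (Y j * Y k) : MvPowerSeries (Fin (m + 1)) ℂ) =
        ∑ j, ∑ k, io (∑ i, ∑ l, P i j * A i l * P l k) * (Y j * Y k) := by
      have r1 : ∀ j k, (io (∑ i, ∑ l, P i j * A i l * P l k) * (Y j * Y k) :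
          MvPowerSeries (Fin (m + 1)) ℂ) = ∑ i, ∑ l, io (P i j * A i l * P l k) * (Y j * Y k) := by
        intro j k
        rw [map_sum, Finset.sum_mul]
        refine Finset.sum_congr rfl fun i _ => ?_
        rw [map_sum, Finset.sum_mul]
      rw [Finset.sum_congr rfl fun j _ => Finset.sum_congr rfl fun k _ => r1 j k]
      calc _ = ∑ i, ∑ j, ∑ l, ∑ k,
            (io (P i j * A i l * P l k) * (Y j * Y k) : MvPowerSeries (Fin (m + 1)) ℂ) :=
            Finset.sum_congr rfl fun i _ => Finset.sum_comm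
        _ = ∑ j, ∑ i, ∑ l, ∑ k,
            (io (P i j * A i l * P l k) * (Y j * Y k) : MvPowerSeries (Fin (m + 1)) ℂ) :=
            Finset.sum_comm
        _ = ∑ j, ∑ i, ∑ k, ∑ l,
            (io (P i j * A i l * P l k) * (Y j * Y k) : MvPowerSeries (Fin (m + 1)) ℂ) :=
            Finset.sum_congr rfl fun j _ => Finset.sum_congr rfl fun i _ => Finset.sum_comm
        _ = _ := Finset.sum_congr rfl fun j _ => Finset.sum_comm
    rw [s2]
    refine Finset.sum_congr rfl fun j _ => ?_
    rw [Finset.sum_eq_single j]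
    · rw [hdiag, if_pos rfl]
      ring
    · intro k _ hk
      rw [hdiag, if_neg (Ne.symm hk), map_zero, zero_mul]
    · exact fun h => absurd (Finset.mem_univ _) h
  rw [e1, e2, Finset.sum_add_distrib]
  ring

/-! ### Polynomials -/

/-- sums of the `a(x) y_i y_j ⋯` with at most `k` factors `y` -/
def G (m k : ℕ) : Set (MvPowerSeries (Fin (m + 1)) ℂ) :=
  {g | ∃ (a : PowerSeries ℂ) (l : List (Fin m)), l.length ≤ k ∧ g = io a * (l.map Y).prod}

/-- power series of degree at most `k` in the `y` -/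
def D (m k : ℕ) : AddSubgroup (MvPowerSeries (Fin (m + 1)) ℂ) := AddSubgroup.closure (G m k)

lemma D_mul {j k : ℕ} {g h : MvPowerSeries (Fin (m + 1)) ℂ} (hg : g ∈ D m j) (hh : h ∈ D m k) :
    g * h ∈ D m (j + k) := by
  unfold D at *
  induction hg using AddSubgroup.closure_induction with
  | mem g hg =>
    induction hh using AddSubgroup.closure_induction with
    | mem h hh =>
      obtain ⟨a, l, hl, rfl⟩ := hg
      obtain ⟨a', l', hl', rfl⟩ := hh
      refine AddSubgroup.subset_closure ⟨a * a', l ++ l', by rw [List.length_append]; omega, ?_⟩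
      rw [map_mul, List.map_append, List.prod_append]
      ring
    | zero => rw [mul_zero]; exact AddSubgroup.zero_mem _
    | add x y _ _ h1 h2 => rw [mul_add]; exact AddSubgroup.add_mem _ h1 h2
    | neg x _ h1 => rw [mul_neg]; exact AddSubgroup.neg_mem _ h1
  | zero => rw [zero_mul]; exact AddSubgroup.zero_mem _
  | add x y _ _ h1 h2 => rw [add_mul]; exact AddSubgroup.add_mem _ h1 h2
  | neg x _ h1 => rw [neg_mul]; exact AddSubgroup.neg_mem _ h1

lemma D_mono {j k : ℕ} (h : j ≤ k) : D m j ≤ D m k := by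
  unfold D
  refine AddSubgroup.closure_mono ?_
  rintro g ⟨a, l, hl, rfl⟩
  exact ⟨a, l, hl.trans h, rfl⟩

lemma D_io (a : PowerSeries ℂ) : (io a : MvPowerSeries (Fin (m + 1)) ℂ) ∈ D m 0 :=
  AddSubgroup.subset_closure ⟨a, [], le_rfl, by simp⟩

lemma D_C (a : ℂ) : (C a : MvPowerSeries (Fin (m + 1)) ℂ) ∈ D m 0 := by
  have h := D_io (m := m) (PowerSeries.C a)
  have h2 : (io (PowerSeries.C a) : MvPowerSeries (Fin (m + 1)) ℂ) = C a :=
    (io (m := m)).commutes a
  rwa [h2] at h

lemma D_Y (i : Fin m) : (Y i : MvPowerSeries (Fin (m + 1)) ℂ) ∈ D m 1 :=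
  AddSubgroup.subset_closure ⟨1, [i], le_rfl, by simp⟩

lemma D_pow {j : ℕ} {g : MvPowerSeries (Fin (m + 1)) ℂ} (hg : g ∈ D m j) (e : ℕ) :
    g ^ e ∈ D m (e * j) := by
  induction e with
  | zero =>
    have h := D_io (m := m) 1
    rw [map_one] at h
    rw [pow_zero, zero_mul]
    exact h
  | succ e ih =>
    rw [pow_succ, Nat.succ_mul]
    exact D_mul ih hg

lemma D_prod {ι : Type} (s : Finset ι) (e : ι → ℕ) (g : ι → MvPowerSeries (Fin (m + 1)) ℂ)
    (h : ∀ i ∈ s, g i ∈ D m (e i)) : ∏ i ∈ s, g i ∈ D m (∑ i ∈ s, e i) := by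
  classical
  induction s using Finset.induction_on with
  | empty =>
    have h := D_io (m := m) 1
    rw [map_one] at h
    rw [Finset.prod_empty, Finset.sum_empty]
    exact h
  | insert i s hi ih =>
    rw [Finset.prod_insert hi, Finset.sum_insert hi]
    exact D_mul (h i (Finset.mem_insert_self i s)) (ih fun j hj => h j (Finset.mem_insert_of_mem hj))

/-- the explicit form -/
lemma D_two {g : MvPowerSeries (Fin (m + 1)) ℂ} (hg : g ∈ D m 2) :
    ∃ (c : PowerSeries ℂ) (b : Fin m → PowerSeries ℂ) (A : Matrix (Fin m) (Fin m) (PowerSeries ℂ)),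
      A.IsSymm ∧ g = io c + ∑ i, io (b i) * Y i + ∑ i, ∑ l, io (A i l) * Y i * Y l := by
  classical
  have key : ∃ (c : PowerSeries ℂ) (b : Fin m → PowerSeries ℂ)
      (A : Matrix (Fin m) (Fin m) (PowerSeries ℂ)),
      g = io c + ∑ i, io (b i) * Y i + ∑ i, ∑ l, io (A i l) * Y i * Y l := by
    unfold D at hg
    induction hg using AddSubgroup.closure_induction with
    | mem g hg =>
      obtain ⟨a, l, hl, rfl⟩ := hg
      match l, hl with
      | [], _ =>
        refine ⟨a, 0, 0, ?_⟩
        simp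
      | [i], _ =>
        refine ⟨0, Pi.single i a, 0, ?_⟩
        rw [Finset.sum_eq_single i]
        · simp
        · intro j _ hj
          rw [Pi.single_eq_of_ne hj, map_zero, zero_mul]
        · exact fun h => absurd (Finset.mem_univ _) h
      | [i, j], _ =>
        have e1 : ∑ i', ∑ l, (io (Matrix.single i j a i' l) * Y i' * Y l :
            MvPowerSeries (Fin (m + 1)) ℂ) = io a * Y i * Y j := by
          rw [Finset.sum_eq_single i, Finset.sum_eq_single j, Matrix.single_apply_same]
          · intro j' _ hj'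
            rw [Matrix.single_apply_of_col_ne _ _ (Ne.symm hj'), map_zero, zero_mul, zero_mul]
          · exact fun h => absurd (Finset.mem_univ _) h
          · intro i' _ hi'
            refine Finset.sum_eq_zero fun l _ => ?_
            rw [Matrix.single_apply_of_row_ne (Ne.symm hi'), map_zero, zero_mul, zero_mul]
          · exact fun h => absurd (Finset.mem_univ _) h
        refine ⟨0, 0, Matrix.single i j a, ?_⟩
        rw [e1]
        simp only [List.map_cons, List.map_nil, List.prod_cons, List.prod_nil, map_zero,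
          Pi.zero_apply, zero_mul, Finset.sum_const_zero]
        ring
      | _ :: _ :: _ :: _, hl =>
        simp at hl
    | zero => exact ⟨0, 0, 0, by simp⟩
    | add x y _ _ h1 h2 =>
      obtain ⟨c, b, A, h1⟩ := h1
      obtain ⟨c', b', A', h2⟩ := h2
      refine ⟨c + c', b + b', A + A', ?_⟩
      rw [h1, h2]
      simp only [Pi.add_apply, Matrix.add_apply, map_add, add_mul, Finset.sum_add_distrib]
      ring
    | neg x _ h1 =>
      obtain ⟨c, b, A, h1⟩ := h1
      refine ⟨-c, -b, -A, ?_⟩
      rw [h1]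
      simp only [Pi.neg_apply, Matrix.neg_apply, map_neg, neg_mul, Finset.sum_neg_distrib]
      abel
  obtain ⟨c, b, A, h⟩ := key
  refine ⟨c, b, fun i l => PowerSeries.C (1 / 2) * (A i l + A l i), ?_, ?_⟩
  · ext i l : 2
    rw [Matrix.transpose_apply, add_comm (A l i)]
  · rw [h]
    congr 1
    have e1 : ∑ i, ∑ l, (io (A l i) * Y i * Y l : MvPowerSeries (Fin (m + 1)) ℂ) =
        ∑ i, ∑ l, io (A i l) * Y i * Y l := by
      rw [Finset.sum_comm]
      exact Finset.sum_congr rfl fun i _ => Finset.sum_congr rfl fun l _ => by ring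
    have e2 : ∀ i l, (io (PowerSeries.C (1 / 2) * (A i l + A l i)) * Y i * Y l :
        MvPowerSeries (Fin (m + 1)) ℂ) = C (1 / 2) * (io (A i l) * Y i * Y l) +
          C (1 / 2) * (io (A l i) * Y i * Y l) := by
      intro i l
      have h2 : (io (PowerSeries.C (1 / 2 : ℂ)) : MvPowerSeries (Fin (m + 1)) ℂ) = C (1 / 2) :=
        (io (m := m)).commutes _
      rw [map_mul, map_add, h2]
      ring
    simp only [e2, Finset.sum_add_distrib, ← Finset.mul_sum, e1]
    rw [← add_mul, ← map_add]
    norm_num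

/-- **The normal form of germs of degree at most two in the `y`.** -/
theorem quad_nf {g : MvPowerSeries (Fin (m + 1)) ℂ} (hg : g ∈ D m 2)
    (h0 : constantCoeff g = 0) :
    ∃ (S : Finset (Fin m)) (n : Fin m → ℕ) (E : MvPolynomial (Fin (m + 1)) ℂ), IsTail S E ∧
      Rl g (nform S n (fun _ => 2) E : MvPowerSeries (Fin (m + 1)) ℂ) := by
  obtain ⟨c, b, A, hA, rfl⟩ := D_two hg
  have hc : PowerSeries.constantCoeff c = 0 := by
    rw [map_add, map_add, const_io, map_sum, map_sum, Finset.sum_eq_zero (fun i _ => by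
      rw [map_mul, constantCoeff_X, mul_zero]), Finset.sum_eq_zero (fun i _ => by
      rw [map_sum]; exact Finset.sum_eq_zero fun l _ => by rw [map_mul, constantCoeff_X, mul_zero]),
      add_zero, add_zero] at h0
    exact h0
  obtain ⟨a, b', h1⟩ := stepT A hA b c
  obtain ⟨S, L, c', hSL, ha, hb, hc', h2⟩ := stepA a b' c hc
  obtain ⟨n, E, hE, h3⟩ := nf (fun _ => 2) (fun _ => two_ne_zero) S L hSL a b' c' ha hb hc'
  exact ⟨S, n, E, hE, h1.trans (h2.trans h3)⟩

end Pool.Agent.Zk22.QB
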