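import Pool.Agent.Zk22.QB.Root
import Pool.Agent.Y229.PS.Chain
import Pool.Agent.Y229.GL.Chg

set_option autoImplicit false
set_option linter.unusedSectionVars false

/-! # Formal changes of coordinates -/

namespace Pool.Agent.Zk22.QB

open MvPowerSeries
open Pool.Agent.Y229.GL (IsCoord)
open Pool.Agent.Y229.PS (chain)

section
variable {n m : ℕ}

lemma const_subst {φ : Fin n → MvPowerSeries (Fin m) ℂ} (hφ0 : ∀ i, constantCoeff (φ i) = 0)
    (w : MvPowerSeries (Fin n) ℂ) : constantCoeff (subst φ w) = constantCoeff w := by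
  have hs := hasSubst_of_constantCoeff_zero hφ0
  have h1 : w = C (constantCoeff w) + (w - C (constantCoeff w)) := by ring
  have h2 : constantCoeff (subst φ (w - C (constantCoeff w))) = 0 := by
    refine constantCoeff_subst_eq_zero hs hφ0 ?_
    rw [map_sub, constantCoeff_C, sub_self]
  have h3 : (subst φ (C (constantCoeff w) : MvPowerSeries (Fin n) ℂ) : MvPowerSeries (Fin m) ℂ) =
      C (constantCoeff w) := by
    have h4 := (substAlgHom hs : MvPowerSeries (Fin n) ℂ →ₐ[ℂ] MvPowerSeries (Fin m) ℂ).commutes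
      (constantCoeff w)
    rw [coe_substAlgHom hs] at h4
    exact h4
  conv_lhs => rw [h1, subst_add hs, map_add, h2, h3, constantCoeff_C, add_zero]

/-- the linear coefficients -/
noncomputable def lin (j : Fin n) (w : MvPowerSeries (Fin n) ℂ) : ℂ :=
  coeff (Finsupp.single j 1) w

lemma lin_eq (j : Fin n) (w : MvPowerSeries (Fin n) ℂ) :
    lin j w = constantCoeff (pderiv ℂ j w) := by
  unfold lin
  rw [← coeff_zero_eq_constantCoeff_apply, coeff_pderiv]
  simp

lemma lin_mul (j : Fin n) (u w : MvPowerSeries (Fin n) ℂ) :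
    lin j (u * w) = constantCoeff u * lin j w + constantCoeff w * lin j u := by
  rw [lin_eq, lin_eq, lin_eq, Derivation.leibniz, smul_eq_mul, smul_eq_mul, map_add, map_mul,
    map_mul]

lemma lin_add (j : Fin n) (u w : MvPowerSeries (Fin n) ℂ) :
    lin j (u + w) = lin j u + lin j w := by
  unfold lin
  rw [map_add]

lemma lin_sub (j : Fin n) (u w : MvPowerSeries (Fin n) ℂ) :
    lin j (u - w) = lin j u - lin j w := by
  unfold lin
  rw [map_sub]

lemma lin_sum {ι : Type} (s : Finset ι) (j : Fin n) (u : ι → MvPowerSeries (Fin n) ℂ) :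
    lin j (∑ i ∈ s, u i) = ∑ i ∈ s, lin j (u i) := by
  unfold lin
  rw [map_sum]

lemma lin_X (i j : Fin n) : lin j (X i : MvPowerSeries (Fin n) ℂ) = if i = j then 1 else 0 := by
  classical
  unfold lin
  rw [coeff_X]
  by_cases h : i = j
  · subst h
    simp
  · rw [if_neg h, if_neg]
    intro h2
    exact h (Finsupp.single_left_injective one_ne_zero h2).symm

lemma lin_subst {φ : Fin n → MvPowerSeries (Fin m) ℂ} (hφ0 : ∀ i, constantCoeff (φ i) = 0)
    (w : MvPowerSeries (Fin n) ℂ) (j : Fin m) :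
    lin j (subst φ w) = ∑ l, lin l w * lin j (φ l) := by
  rw [lin_eq, chain hφ0, map_sum]
  refine Finset.sum_congr rfl fun l _ => ?_
  rw [map_mul, const_subst hφ0, lin_eq, lin_eq]

lemma isCoord_iff {φ : Fin n → MvPowerSeries (Fin n) ℂ} :
    IsCoord φ ↔ (Matrix.of fun i j => lin j (φ i)).det ≠ 0 := Iff.rfl

lemma coord_comp {φ Ψ : Fin n → MvPowerSeries (Fin n) ℂ} (hφ : IsCoord φ)
    (hφ0 : ∀ i, constantCoeff (φ i) = 0) (hΨ : IsCoord Ψ) :
    IsCoord (fun i => subst φ (Ψ i)) := by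
  rw [isCoord_iff] at hφ hΨ ⊢
  have h1 : (Matrix.of fun i j => lin j (subst φ (Ψ i))) =
      (Matrix.of fun i j => lin j (Ψ i)) * (Matrix.of fun i j => lin j (φ i)) := by
    ext i j
    rw [Matrix.mul_apply, Matrix.of_apply, lin_subst hφ0]
    rfl
  rw [h1, Matrix.det_mul]
  exact mul_ne_zero hΨ hφ

/-- matrices which are triangular for a suitable order -/
lemma det_ne_of_rank (M : Matrix (Fin n) (Fin n) ℂ) (ρ : Fin n → ℕ) (h1 : ∀ i, M i i ≠ 0)
    (h2 : ∀ i j, i ≠ j → ρ i ≤ ρ j → M i j = 0) : M.det ≠ 0 := by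
  intro h0
  obtain ⟨u, hu, hMu⟩ := Matrix.exists_mulVec_eq_zero_iff.2 h0
  apply hu
  have key : ∀ k : ℕ, ∀ i, ρ i = k → u i = 0 := by
    intro k
    induction k using Nat.strong_induction_on with
    | _ k ih =>
      intro i hi
      have h3 := congrFun hMu i
      rw [Matrix.mulVec, dotProduct, Finset.sum_eq_single i, Pi.zero_apply] at h3
      · exact (mul_eq_zero.1 h3).resolve_left (h1 i)
      · intro j _ hj
        by_cases hr : ρ i ≤ ρ j
        · rw [h2 i j (Ne.symm hj) hr, zero_mul]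
        · rw [ih (ρ j) (by omega) j rfl, mul_zero]
      · intro h
        exact absurd (Finset.mem_univ _) h
  funext i
  exact key _ i rfl

/-- `f` becomes `g` in suitable formal coordinates at the origin, up to a unit -/
def Rl (f g : MvPowerSeries (Fin n) ℂ) : Prop :=
  ∃ (φ : Fin n → MvPowerSeries (Fin n) ℂ) (u : MvPowerSeries (Fin n) ℂ),
    IsCoord φ ∧ (∀ i, constantCoeff (φ i) = 0) ∧ IsUnit u ∧ subst φ f = u * g

theorem Rl.trans {f g h : MvPowerSeries (Fin n) ℂ} (h1 : Rl f g) (h2 : Rl g h) : Rl f h := by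
  obtain ⟨φ, u, hφ, hφ0, hu, e1⟩ := h1
  obtain ⟨ψ, v, hψ, hψ0, hv, e2⟩ := h2
  have hs := hasSubst_of_constantCoeff_zero hψ0
  refine ⟨fun i => subst ψ (φ i), subst ψ u * v, coord_comp hψ hψ0 hφ, fun i => ?_, ?_, ?_⟩
  · rw [const_subst hψ0, hφ0]
  · refine IsUnit.mul ?_ hv
    rw [← coe_substAlgHom hs]
    exact hu.map _
  · rw [← subst_comp_subst_apply (hasSubst_of_constantCoeff_zero hφ0) hs, e1, subst_mul hs, e2,
      mul_assoc]

theorem Rl.ne_zero {f g : MvPowerSeries (Fin n) ℂ} (h1 : Rl f g) (h : g = 0) :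
    ∃ φ : Fin n → MvPowerSeries (Fin n) ℂ, IsCoord φ ∧ (∀ i, constantCoeff (φ i) = 0) ∧
      subst φ f = 0 := by
  obtain ⟨φ, u, hφ, hφ0, hu, e1⟩ := h1
  exact ⟨φ, hφ, hφ0, by rw [e1, h, mul_zero]⟩

end

section
variable {m : ℕ}

/-- power series in the first variable -/
noncomputable def io : PowerSeries ℂ →ₐ[ℂ] MvPowerSeries (Fin (m + 1)) ℂ :=
  rename (fun _ : Unit => (0 : Fin (m + 1)))

lemma io_X : (io (PowerSeries.X : PowerSeries ℂ) : MvPowerSeries (Fin (m + 1)) ℂ) = X 0 :=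
  rename_X _ _

lemma const_io (a : PowerSeries ℂ) :
    constantCoeff (io a : MvPowerSeries (Fin (m + 1)) ℂ) = PowerSeries.constantCoeff a :=
  constantCoeff_rename _ _

lemma subst_io {φ : Fin (m + 1) → MvPowerSeries (Fin (m + 1)) ℂ}
    (hφ : ∀ i, constantCoeff (φ i) = 0) (h0 : φ 0 = X 0) (a : PowerSeries ℂ) :
    subst φ (io a : MvPowerSeries (Fin (m + 1)) ℂ) = io a := by
  unfold io
  rw [rename_eq_subst, subst_comp_subst_apply (HasSubst.X_comp _)
    (hasSubst_of_constantCoeff_zero hφ)]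
  congr 1
  funext i
  rw [Function.comp_apply, subst_X (hasSubst_of_constantCoeff_zero hφ), h0]

lemma lin_io (a : PowerSeries ℂ) (j : Fin m) :
    lin j.succ (io a : MvPowerSeries (Fin (m + 1)) ℂ) = 0 := by
  unfold lin io
  refine coeff_rename_eq_zero _ _ ?_
  rintro ⟨u, hu⟩
  have h1 := DFunLike.congr_fun hu j.succ
  rw [Finsupp.single_eq_same, Finsupp.mapDomain_of_notMem_range _ _ (by
    rintro ⟨i, hi⟩
    exact Fin.succ_ne_zero j hi.symm)] at h1
  exact zero_ne_one h1

end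

end Pool.Agent.Zk22.QB
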