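import Mathlib

set_option autoImplicit false

/-! # Roots of units in rings of formal power series over `ℂ` -/

namespace Pool.Agent.Zk22.QB

open MvPowerSeries

theorem binom_pow (k : ℕ) (hk : k ≠ 0) :
    (PowerSeries.binomialSeries ℂ ((k : ℚ)⁻¹)) ^ k = 1 + PowerSeries.X := by
  have h : ∀ j : ℕ, (PowerSeries.binomialSeries ℂ ((k : ℚ)⁻¹)) ^ j =
      PowerSeries.binomialSeries ℂ ((j : ℚ) * (k : ℚ)⁻¹) := by
    intro j
    induction j with
    | zero => simp
    | succ j ih =>
      rw [pow_succ, ih, ← PowerSeries.binomialSeries_add]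
      congr 1
      push_cast
      ring
  rw [h, mul_inv_cancel₀ (by exact_mod_cast hk)]
  have := PowerSeries.binomialSeries_nat (R := ℚ) (A := ℂ) 1
  simpa using this

/-- units have `k`-th roots -/
theorem exists_root {σ : Type} (u : MvPowerSeries σ ℂ) (hu : constantCoeff u ≠ 0) (k : ℕ)
    (hk : k ≠ 0) : ∃ s : MvPowerSeries σ ℂ, s ^ k = u := by
  set c := constantCoeff u
  set w : MvPowerSeries σ ℂ := C c⁻¹ * u - 1 with hw
  have hw0 : constantCoeff w = 0 := by
    rw [hw, map_sub, map_mul, map_one, constantCoeff_C]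
    exact sub_eq_zero.2 (inv_mul_cancel₀ hu)
  have hs : PowerSeries.HasSubst w := PowerSeries.HasSubst.of_constantCoeff_zero hw0
  obtain ⟨d, hd⟩ := IsAlgClosed.exists_pow_nat_eq c (Nat.pos_of_ne_zero hk)
  refine ⟨C d * PowerSeries.subst w (PowerSeries.binomialSeries ℂ ((k : ℚ)⁻¹)), ?_⟩
  rw [mul_pow, ← PowerSeries.subst_pow hs, binom_pow k hk, PowerSeries.subst_add hs,
    PowerSeries.subst_X hs, ← map_pow, hd]
  have h1 : PowerSeries.subst w (1 : PowerSeries ℂ) = (1 : MvPowerSeries σ ℂ) := by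
    rw [← PowerSeries.coe_substAlgHom hs, map_one]
  rw [h1, hw]
  have h2 : (C c * C c⁻¹ : MvPowerSeries σ ℂ) = 1 := by
    rw [← map_mul, mul_inv_cancel₀ hu, map_one]
  linear_combination u * h2

theorem const_root {σ : Type} {u s : MvPowerSeries σ ℂ} (hu : constantCoeff u ≠ 0) {k : ℕ}
    (hk : k ≠ 0) (h : s ^ k = u) : constantCoeff s ≠ 0 := by
  intro h0
  apply hu
  rw [← h, map_pow, h0, zero_pow hk]

end Pool.Agent.Zk22.QB
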